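import Pool.Agent.X255.HY.Fld2

/-!
# Towers of square roots: the decomposition of a differential equation; residues
-/

set_option autoImplicit false

open Polynomial

namespace Pool.Agent.N121.OQ

section res

theorem res_aux {r : ℕ} {f : ℂ[X]} (x e : Fin r → ℂ) (hx : Function.Injective x) (hfx : ∀ i, f.eval (-(x i)) ≠ 0)
    (P Q W : ℂ[X]) (hPQ : IsCoprime P Q) (hQ : Q ≠ 0)
    (h : (2 * f * (derivative P * Q - P * derivative Q) + P * derivative f * Q) * ∏ i, (X + C (x i)) =
      2 * Q * Q * (W * ∏ i, (X + C (x i)) + ∑ i, C (e i) * ∏ j ∈ Finset.univ.erase i, (X + C (x j)))) (i : Fin r) :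
    e i = 0 := by
  classical
  set M : ℂ[X] := ∏ j ∈ Finset.univ.erase i, (X + C (x j)) with hM
  have hprod : ∏ j, (X + C (x j)) = (X + C (x i)) * M := (Finset.mul_prod_erase _ _ (Finset.mem_univ i)).symm
  have hMi : M.eval (-(x i)) ≠ 0 := by
    rw [hM, eval_prod]
    refine Finset.prod_ne_zero_iff.2 fun j hj => ?_
    rw [eval_add, eval_X, eval_C]
    intro h0
    exact (Finset.ne_of_mem_erase hj) (hx (by linear_combination h0))
  have hroot : ∀ p : ℂ[X], (X + C (x i)) ∣ p ↔ p.eval (-(x i)) = 0 := by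
    intro p
    have h1 : (X + C (x i) : ℂ[X]) = X - C (-(x i)) := by rw [C_neg, sub_neg_eq_add]
    rw [h1, dvd_iff_isRoot]
    rfl
  have hπ : Prime (X + C (x i) : ℂ[X]) := by
    have h1 : (X + C (x i) : ℂ[X]) = X - C (-(x i)) := by rw [C_neg, sub_neg_eq_add]
    rw [h1]
    exact prime_X_sub_C _
  set Z : ℂ[X] := W * ∏ i, (X + C (x i)) + ∑ i, C (e i) * ∏ j ∈ Finset.univ.erase i, (X + C (x j)) with hZ
  have hQi : ¬ (X + C (x i)) ∣ Q := by
    intro hd
    have hPi : ¬ (X + C (x i)) ∣ P := by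
      intro hd2
      obtain ⟨u, v, huv⟩ := hPQ
      exact hπ.not_isUnit (isUnit_of_dvd_one (huv ▸ dvd_add (hd2.mul_left u) (hd.mul_left v)))
    obtain ⟨k, R, hR, hQR⟩ := WfDvdMonoid.max_power_factor hQ hπ.irreducible
    have hk : k ≠ 0 := by
      rintro rfl
      apply hR
      rw [pow_zero, one_mul] at hQR
      rw [← hQR]
      exact hd
    obtain ⟨j, rfl⟩ := Nat.exists_eq_succ_of_ne_zero hk
    have hQ' : derivative Q = (X + C (x i)) ^ j * (((j : ℂ[X]) + 1) * R + (X + C (x i)) * derivative R) := by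
      rw [hQR, derivative_mul, derivative_pow]
      simp only [Nat.succ_eq_add_one, Nat.add_sub_cancel, derivative_add, derivative_X, derivative_C, add_zero]
      push_cast
      simp only [map_add, map_natCast, map_one]
      ring
    have h1 : (X + C (x i)) ^ (j + 1) * ((X + C (x i)) * ((2 * f * (derivative P * R - P * derivative R) +
        P * derivative f * R) * M) - 2 * f * P * ((j : ℂ[X]) + 1) * R * M) =
        (X + C (x i)) ^ (j + 1) * ((X + C (x i)) * ((X + C (x i)) ^ j * R * R * (2 * Z))) := by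
      have h2 := h
      rw [hprod, hQ', hQR] at h2
      simp only [Nat.succ_eq_add_one] at h2
      linear_combination h2
    have h3 := mul_left_cancel₀ (pow_ne_zero (j + 1) hπ.ne_zero) h1
    have h4 : (X + C (x i)) ∣ 2 * f * P * ((j : ℂ[X]) + 1) * R * M := by
      refine ⟨((2 * f * (derivative P * R - P * derivative R) + P * derivative f * R) * M) -
        (X + C (x i)) ^ j * R * R * (2 * Z), ?_⟩
      linear_combination (-1 : ℂ[X]) * h3
    rcases hπ.dvd_or_dvd h4 with h5 | h5
    · rcases hπ.dvd_or_dvd h5 with h6 | h6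
      · rcases hπ.dvd_or_dvd h6 with h7 | h7
        · rcases hπ.dvd_or_dvd h7 with h8 | h8
          · rw [hroot, eval_mul] at h8
            rcases mul_eq_zero.1 h8 with h9 | h9
            · simp at h9
            · exact hfx i h9
          · exact hPi h8
        · rw [hroot] at h7
          rw [eval_add, eval_natCast, eval_one] at h7
          exact Nat.cast_add_one_ne_zero j h7
      · exact hR h6
    · exact hMi ((hroot M).1 h5)
  have h1 := congrArg (eval (-(x i))) h
  have h2 : Q.eval (-(x i)) ≠ 0 := fun h0 => hQi ((hroot Q).2 h0)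
  have h3 : Z.eval (-(x i)) = e i * M.eval (-(x i)) := by
    rw [hZ, eval_add, hprod, eval_mul, eval_mul, eval_add, eval_X, eval_C, neg_add_cancel, zero_mul, mul_zero, zero_add,
      eval_finsetSum, Finset.sum_eq_single i]
    · rw [eval_mul, eval_C]
    · intro k _ hk
      rw [eval_mul, eval_prod, Finset.prod_eq_zero (i := i) (Finset.mem_erase.2 ⟨hk.symm, Finset.mem_univ _⟩), mul_zero]
      simp
    · simp
  rw [hprod, eval_mul, eval_mul (p := X + C (x i)), eval_add (p := X), eval_X, eval_C, neg_add_cancel, zero_mul,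
    mul_zero, eval_mul, h3, eval_mul, eval_mul] at h1
  have h4 := h1.symm
  have h5 : (2 : ℂ[X]).eval (-(x i)) ≠ 0 := by simp
  have h6 : (2 : ℂ[X]).eval (-(x i)) * Q.eval (-(x i)) * Q.eval (-(x i)) ≠ 0 := mul_ne_zero (mul_ne_zero h5 h2) h2
  rcases mul_eq_zero.1 h4 with h7 | h7
  · exact absurd h7 h6
  · rcases mul_eq_zero.1 h7 with h8 | h8
    · exact h8
    · exact absurd h8 hMi

/-- **differentials of the first, second and third kind are not exact** -/
theorem key3 {r : ℕ} {f : ℂ[X]} (hf : Squarefree f) (x e : Fin r → ℂ) (hx : Function.Injective x)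
    (hfx : ∀ i, f.eval (-(x i)) ≠ 0) (P Q W : ℂ[X]) (hQ : Q ≠ 0) (hW : W.natDegree + 2 ≤ f.natDegree ∨ W = 0)
    (h : (2 * f * (derivative P * Q - P * derivative Q) + P * derivative f * Q) * ∏ i, (X + C (x i)) =
      2 * Q * Q * (W * ∏ i, (X + C (x i)) + ∑ i, C (e i) * ∏ j ∈ Finset.univ.erase i, (X + C (x j)))) :
    e = 0 ∧ W = 0 := by
  classical
  have he : e = 0 := by
    obtain ⟨g, P1, Q1, hg0, hco, hP1, hQ1⟩ : ∃ g P1 Q1 : ℂ[X], g ≠ 0 ∧ IsCoprime P1 Q1 ∧ P = g * P1 ∧ Q = g * Q1 := by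
      have hg0 : EuclideanDomain.gcd P Q ≠ 0 := by
        intro h0
        exact hQ ((EuclideanDomain.gcd_eq_zero_iff.1 h0).2)
      obtain ⟨P1, hP1⟩ := EuclideanDomain.gcd_dvd_left P Q
      obtain ⟨Q1, hQ1⟩ := EuclideanDomain.gcd_dvd_right P Q
      refine ⟨_, P1, Q1, hg0, ?_, hP1, hQ1⟩
      have hb := EuclideanDomain.gcd_eq_gcd_ab P Q
      refine ⟨EuclideanDomain.gcdA P Q, EuclideanDomain.gcdB P Q, ?_⟩
      apply mul_left_cancel₀ hg0
      calc EuclideanDomain.gcd P Q * (EuclideanDomain.gcdA P Q * P1 + EuclideanDomain.gcdB P Q * Q1) =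
            (EuclideanDomain.gcd P Q * P1) * EuclideanDomain.gcdA P Q +
            (EuclideanDomain.gcd P Q * Q1) * EuclideanDomain.gcdB P Q := by ring
        _ = P * EuclideanDomain.gcdA P Q + Q * EuclideanDomain.gcdB P Q := by rw [← hP1, ← hQ1]
        _ = EuclideanDomain.gcd P Q * 1 := by rw [mul_one]; exact hb.symm
    subst hP1 hQ1
    have hQ1 : Q1 ≠ 0 := right_ne_zero_of_mul hQ
    funext i
    refine res_aux x e hx hfx P1 Q1 W hco hQ1 ?_ i
    apply mul_left_cancel₀ (mul_ne_zero hg0 hg0)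
    rw [derivative_mul, derivative_mul] at h
    linear_combination h
  refine ⟨he, ?_⟩
  rcases hW with hW | hW
  · rw [he] at h
    simp only [Pi.zero_apply, C_0, zero_mul, Finset.sum_const_zero, add_zero] at h
    have hR0 : ∏ i : Fin r, (X + C (x i)) ≠ (0 : ℂ[X]) :=
      Finset.prod_ne_zero_iff.2 fun i _ => (monic_X_add_C (x i)).ne_zero
    refine Pool.Agent.X255.HY.key hf P Q W hQ hW ?_
    apply mul_right_cancel₀ hR0
    linear_combination h
  · exact hW

end res

variable {E : Type} [Field E] [Algebra ℂ E]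

/-- adjoining a square root -/
def quad (K : IntermediateField ℂ E) (s : E) (hs : s * s ∈ K) : IntermediateField ℂ E where
  carrier := {x | ∃ a ∈ K, ∃ b ∈ K, x = a + b * s}
  mul_mem' := by
    rintro x y ⟨a, ha, b, hb, rfl⟩ ⟨a', ha', b', hb', rfl⟩
    exact ⟨a * a' + b * b' * (s * s), add_mem (mul_mem ha ha') (mul_mem (mul_mem hb hb') hs), a * b' + b * a',
      add_mem (mul_mem ha hb') (mul_mem hb ha'), by ring⟩
  add_mem' := by
    rintro x y ⟨a, ha, b, hb, rfl⟩ ⟨a', ha', b', hb', rfl⟩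
    exact ⟨a + a', add_mem ha ha', b + b', add_mem hb hb', by ring⟩
  algebraMap_mem' := fun c => ⟨algebraMap ℂ E c, K.algebraMap_mem c, 0, zero_mem _, by simp⟩
  inv_mem' := by
    rintro x ⟨a, ha, b, hb, rfl⟩
    by_cases h0 : a * a - b * b * (s * s) = 0
    · rcases mul_eq_zero.1 (show (a - b * s) * (a + b * s) = 0 by linear_combination h0) with h1 | h1
      · refine ⟨(a + b * s)⁻¹, ?_, 0, zero_mem _, by ring⟩
        have h2 : a + b * s = a + a := by linear_combination -h1
        rw [h2]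
        exact inv_mem (add_mem ha ha)
      · rw [h1]
        exact ⟨0, zero_mem _, 0, zero_mem _, by simp⟩
    · have h1 : (a * a - b * b * (s * s))⁻¹ ∈ K :=
        inv_mem (sub_mem (mul_mem ha ha) (mul_mem (mul_mem hb hb) hs))
      have h2 : a + b * s ≠ 0 := by
        intro h3
        exact h0 (by linear_combination (a - b * s) * h3)
      refine ⟨a * (a * a - b * b * (s * s))⁻¹, mul_mem ha h1, -b * (a * a - b * b * (s * s))⁻¹,
        mul_mem (neg_mem hb) h1, ?_⟩
      refine inv_eq_of_mul_eq_one_left ?_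
      have h3 := mul_inv_cancel₀ h0
      linear_combination h3

theorem mem_quad {K : IntermediateField ℂ E} {s : E} {hs : s * s ∈ K} {x : E} :
    x ∈ quad K s hs ↔ ∃ a ∈ K, ∃ b ∈ K, x = a + b * s := Iff.rfl

/-- the data: square roots of pairwise coprime square-free polynomials -/
structure Tw (D : Derivation ℂ E E) (τ : E) (f : ℕ → ℂ[X]) (S : ℕ → E) (N : ℕ) : Prop where
  tr : ∀ Q : ℂ[X], aeval τ Q = 0 → Q = 0
  Dτ : D τ = 1
  SS : ∀ j, S j * S j = aeval τ (f j)
  sf : ∀ j < N, Squarefree (f j)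
  cop : ∀ i < N, ∀ j < N, i ≠ j → IsCoprime (f i) (f j)
  hm : ∀ j < N, 1 ≤ (f j).natDegree

theorem poly_adj (τ : E) (P : ℂ[X]) : aeval τ P ∈ IntermediateField.adjoin ℂ {τ} :=
  IntermediateField.algebra_adjoin_le_adjoin ℂ {τ} (aeval_mem_adjoin_singleton ℂ τ)

/-- the tower -/
noncomputable def Kt (τ : E) (f : ℕ → ℂ[X]) (S : ℕ → E) (h : ∀ j, S j * S j = aeval τ (f j)) :
    ℕ → {K : IntermediateField ℂ E // ∀ P : ℂ[X], aeval τ P ∈ K}
  | 0 => ⟨IntermediateField.adjoin ℂ {τ}, poly_adj τ⟩
  | j + 1 => ⟨quad (Kt τ f S h j).1 (S j) (by rw [h j]; exact (Kt τ f S h j).2 _),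
      fun P => ⟨aeval τ P, (Kt τ f S h j).2 P, 0, zero_mem _, by simp⟩⟩

variable {D : Derivation ℂ E E} {τ : E} {f : ℕ → ℂ[X]} {S : ℕ → E} {N : ℕ}

/-- the fields -/
noncomputable def KK (h : Tw D τ f S N) (j : ℕ) : IntermediateField ℂ E := (Kt τ f S h.SS j).1

theorem KK_poly (h : Tw D τ f S N) (j : ℕ) (P : ℂ[X]) : aeval τ P ∈ KK h j := (Kt τ f S h.SS j).2 P

theorem KK_zero (h : Tw D τ f S N) : KK h 0 = IntermediateField.adjoin ℂ {τ} := rfl

theorem mem_KK (h : Tw D τ f S N) (j : ℕ) (x : E) : x ∈ KK h (j + 1) ↔ ∃ a ∈ KK h j, ∃ b ∈ KK h j, x = a + b * S j :=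
  Iff.rfl

theorem KK_succ (h : Tw D τ f S N) (j : ℕ) : KK h j ≤ KK h (j + 1) := fun x hx => ⟨x, hx, 0, zero_mem _, by ring⟩

theorem KK_mono (h : Tw D τ f S N) {i j : ℕ} (hij : i ≤ j) : KK h i ≤ KK h j :=
  monotone_nat_of_le_succ (KK_succ h) hij

theorem rat_rep (h : Tw D τ f S N) {x : E} (hx : x ∈ KK h 0) : ∃ A Q : ℂ[X], Q ≠ 0 ∧ x * aeval τ Q = aeval τ A := by
  rw [KK_zero, IntermediateField.mem_adjoin_simple_iff] at hx
  obtain ⟨r, s, rfl⟩ := hx
  by_cases hs : s = 0
  · exact ⟨0, 1, one_ne_zero, by simp [hs]⟩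
  · refine ⟨r, s, hs, div_mul_cancel₀ _ fun h0 => hs (h.tr _ h0)⟩

theorem f_ne (h : Tw D τ f S N) {j : ℕ} (hj : j < N) : f j ≠ 0 := by
  intro h0
  have := h.hm j hj
  rw [h0] at this
  simp at this

/-- the logarithmic derivatives of the square roots -/
noncomputable def dl (τ : E) (f : ℕ → ℂ[X]) (j : ℕ) : E := aeval τ (derivative (f j)) * (2 * aeval τ (f j))⁻¹

theorem dl_mem (h : Tw D τ f S N) (i j : ℕ) : dl τ f i ∈ KK h j := by
  unfold dl
  refine mul_mem (KK_poly h j _) (inv_mem ?_)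
  have h1 : (2 : E) * aeval τ (f i) = aeval τ (2 * f i) := by
    rw [map_mul, map_ofNat]
  rw [h1]
  exact KK_poly h j _

theorem D_S [CharZero E] (h : Tw D τ f S N) {j : ℕ} (hj : j < N) : D (S j) = dl τ f j * S j := by
  have h1 : D (S j * S j) = aeval τ (derivative (f j)) := by rw [h.SS, Pool.Agent.X255.HY.D_aeval h.Dτ]
  rw [Derivation.leibniz, smul_eq_mul] at h1
  have h2 : aeval τ (f j) ≠ 0 := fun h0 => f_ne h hj (h.tr _ h0)
  have h3 : S j ≠ 0 := by
    intro h0
    have := h.SS j
    rw [h0, mul_zero] at this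
    exact h2 this.symm
  unfold dl
  rw [← h1, ← h.SS]
  field_simp
  ring

theorem D_mem [CharZero E] (h : Tw D τ f S N) (j : ℕ) (hj : j ≤ N) : ∀ x ∈ KK h j, D x ∈ KK h j := by
  induction j with
  | zero =>
    intro x hx
    obtain ⟨A, Q, hQ, hx1⟩ := rat_rep h hx
    have h1 := congrArg D hx1
    rw [Derivation.leibniz, Pool.Agent.X255.HY.D_aeval h.Dτ, Pool.Agent.X255.HY.D_aeval h.Dτ] at h1
    simp only [smul_eq_mul] at h1
    have h2 : aeval τ Q ≠ 0 := fun h0 => hQ (h.tr _ h0)
    have h3 : D x = (aeval τ (derivative A) - x * aeval τ (derivative Q)) * (aeval τ Q)⁻¹ := by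
      rw [eq_mul_inv_iff_mul_eq₀ h2]
      linear_combination h1
    rw [h3]
    exact mul_mem (sub_mem (KK_poly h 0 _) (mul_mem hx (KK_poly h 0 _))) (inv_mem (KK_poly h 0 _))
  | succ j ih =>
    rintro x ⟨a, ha, b, hb, rfl⟩
    have hj' : j < N := hj
    refine ⟨D a, ih hj'.le a ha, D b + b * dl τ f j, add_mem (ih hj'.le b hb) (mul_mem hb (dl_mem h j j)), ?_⟩
    rw [map_add, Derivation.leibniz, D_S h hj']
    simp only [smul_eq_mul]
    ring

/-- the square roots of the products -/
noncomputable def PS (S : ℕ → E) (T : Finset ℕ) : E := ∏ i ∈ T, S i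

/-- the products -/
noncomputable def PF (f : ℕ → ℂ[X]) (T : Finset ℕ) : ℂ[X] := ∏ i ∈ T, f i

theorem PS_sq (h : Tw D τ f S N) (T : Finset ℕ) : PS S T * PS S T = aeval τ (PF f T) := by
  unfold PS PF
  rw [← Finset.prod_mul_distrib, map_prod]
  exact Finset.prod_congr rfl fun i _ => h.SS i

theorem PF_sf (h : Tw D τ f S N) {T : Finset ℕ} (hT : T ⊆ Finset.range N) : Squarefree (PF f T) := by
  unfold PF
  refine Finset.squarefree_prod_of_pairwise_isCoprime ?_ ?_
  · intro i hi j hj hij
    exact (h.cop i (Finset.mem_range.1 (hT hi)) j (Finset.mem_range.1 (hT hj)) hij).isRelPrime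
  · intro i hi
    exact h.sf i (Finset.mem_range.1 (hT hi))

theorem PF_ne (h : Tw D τ f S N) {T : Finset ℕ} (hT : T ⊆ Finset.range N) : PF f T ≠ 0 :=
  Finset.prod_ne_zero_iff.2 fun _ hi => f_ne h (Finset.mem_range.1 (hT hi))

theorem PF_deg (h : Tw D τ f S N) {T : Finset ℕ} (hT : T ⊆ Finset.range N) (hne : T.Nonempty) :
    1 ≤ (PF f T).natDegree := by
  obtain ⟨i, hi⟩ := hne
  unfold PF
  rw [natDegree_prod _ _ fun j hj => f_ne h (Finset.mem_range.1 (hT hj))]
  exact (h.hm i (Finset.mem_range.1 (hT hi))).trans (Finset.single_le_sum (f := fun i => (f i).natDegree)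
    (fun _ _ => Nat.zero_le _) hi)

theorem S_ne (h : Tw D τ f S N) {j : ℕ} (hj : j < N) : S j ≠ 0 := by
  intro h0
  have := h.SS j
  rw [h0, mul_zero] at this
  exact f_ne h hj (h.tr _ this.symm)

theorem PS_ne (h : Tw D τ f S N) {T : Finset ℕ} (hT : T ⊆ Finset.range N) : PS S T ≠ 0 :=
  Finset.prod_ne_zero_iff.2 fun _ hi => S_ne h (Finset.mem_range.1 (hT hi))

/-- the square roots are not in the smaller fields -/
theorem PS_notMem [CharZero E] (h : Tw D τ f S N) (j : ℕ) (hj : j ≤ N) : ∀ T : Finset ℕ, T ⊆ Finset.range N →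
    (∃ i ∈ T, j ≤ i) → PS S T ∉ KK h j := by
  classical
  induction j with
  | zero =>
    rintro T hT ⟨i, hi, _⟩ hmem
    obtain ⟨A, Q, hQ, hx⟩ := rat_rep h hmem
    have h1 : A * A = Q * Q * PF f T := by
      rw [← sub_eq_zero]
      apply h.tr
      simp only [map_sub, map_mul]
      rw [← PS_sq h T]
      linear_combination (-(PS S T * aeval τ Q) - aeval τ A) * hx
    exact hQ (Pool.Agent.X255.HY.nosq (PF_sf h hT) (PF_deg h hT ⟨i, hi⟩) A Q h1).2
  | succ j ih =>
    rintro T hT ⟨i, hi, hji⟩ hmem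
    have hj' : j < N := hj
    obtain ⟨a, ha, b, hb, hab⟩ := (mem_KK h j _).1 hmem
    have hSj : S j ∉ KK h j := by
      have h1 := ih hj'.le {j} (by simpa using hj') ⟨j, by simp, le_rfl⟩
      unfold PS at h1
      rwa [Finset.prod_singleton] at h1
    have h2 : 2 * (a * b) * S j = aeval τ (PF f T) - a * a - b * b * aeval τ (f j) := by
      rw [← PS_sq h T, ← h.SS j, hab]
      ring
    have h3 : a * b = 0 := by
      by_contra hne
      apply hSj
      have h4 : S j = (aeval τ (PF f T) - a * a - b * b * aeval τ (f j)) * (a * b + a * b)⁻¹ := by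
        rw [← h2, eq_mul_inv_iff_mul_eq₀]
        · ring
        · intro h5
          apply hne
          have : 2 * (a * b) = 0 := by rw [← h5]; ring
          simpa using this
      rw [h4]
      exact mul_mem (sub_mem (sub_mem (KK_poly h j _) (mul_mem ha ha)) (mul_mem (mul_mem hb hb) (KK_poly h j _)))
        (inv_mem (add_mem (mul_mem ha hb) (mul_mem ha hb)))
    rcases mul_eq_zero.1 h3 with h4 | h4
    · -- `S_T = b S_j`
      rw [h4, zero_add] at hab
      by_cases hjT : j ∈ T
      · have h5 : PS S T = S j * PS S (T.erase j) := (Finset.mul_prod_erase T S hjT).symm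
        have h6 : PS S (T.erase j) = b := by
          apply mul_left_cancel₀ (S_ne h hj')
          rw [← h5, hab, mul_comm]
        refine ih hj'.le (T.erase j) ((Finset.erase_subset _ _).trans hT) ⟨i, Finset.mem_erase.2 ⟨by omega, hi⟩, by omega⟩ ?_
        rw [h6]
        exact hb
      · have h5 : PS S (insert j T) = S j * PS S T := Finset.prod_insert hjT
        have h6 : PS S (insert j T) = b * aeval τ (f j) := by
          rw [h5, hab, ← h.SS j]
          ring
        refine ih hj'.le (insert j T) ?_ ⟨j, Finset.mem_insert_self _ _, le_rfl⟩ ?_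
        · intro k hk
          rcases Finset.mem_insert.1 hk with h7 | h7
          · rw [h7]
            exact Finset.mem_range.2 hj'
          · exact hT h7
        · rw [h6]
          exact mul_mem hb (KK_poly h j _)
    · rw [h4, zero_mul, add_zero] at hab
      refine ih hj'.le T hT ⟨i, hi, by omega⟩ ?_
      rw [hab]
      exact ha

theorem PS_mem (h : Tw D τ f S N) (j : ℕ) : ∀ T ⊆ Finset.range j, PS S T ∈ KK h j := by
  classical
  induction j with
  | zero =>
    intro T hT
    have h1 : T = ∅ := by simpa using hT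
    rw [h1]
    exact one_mem _
  | succ j ih =>
    intro T hT
    by_cases hjT : j ∈ T
    · have h5 : PS S T = S j * PS S (T.erase j) := (Finset.mul_prod_erase T S hjT).symm
      refine ⟨0, zero_mem _, PS S (T.erase j), ih _ ?_, by rw [h5]; ring⟩
      intro k hk
      have h1 := Finset.mem_range.1 (hT (Finset.mem_of_mem_erase hk))
      have h2 := Finset.ne_of_mem_erase hk
      exact Finset.mem_range.2 (by omega)
    · refine KK_succ h j (ih T ?_)
      intro k hk
      have h1 := Finset.mem_range.1 (hT hk)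
      have h2 : k ≠ j := fun h3 => hjT (h3 ▸ hk)
      exact Finset.mem_range.2 (by omega)

/-- **decomposition into the eigenspaces** -/
theorem dec [CharZero E] (h : Tw D τ f S N) (j : ℕ) (hj : j ≤ N) : ∀ (δ : E), δ ∈ KK h 0 → ∀ g ∈ KK h j,
    ∀ ω : Finset ℕ → E, (∀ T ⊆ Finset.range j, ω T ∈ KK h 0) →
    D g + δ * g = ∑ T ∈ (Finset.range j).powerset, ω T * PS S T →
    ∀ T ⊆ Finset.range j, ∃ u ∈ KK h 0, D u + (δ + ∑ i ∈ T, dl τ f i) * u = ω T := by
  classical
  induction j with
  | zero =>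
    intro δ hδ g hg ω hω hD T hT
    have h1 : T = ∅ := by simpa using hT
    subst h1
    refine ⟨g, hg, ?_⟩
    rw [Finset.sum_empty, add_zero, hD]
    simp [PS]
  | succ j ih =>
    intro δ hδ g hg ω hω hD T hT
    have hj' : j < N := hj
    obtain ⟨a, ha, b, hb, rfl⟩ := (mem_KK h j _).1 hg
    have hSj : S j ∉ KK h j := by
      have h1 := PS_notMem h j hj'.le {j} (by simpa using hj') ⟨j, by simp, le_rfl⟩
      unfold PS at h1
      rwa [Finset.prod_singleton] at h1
    have hnot : ∀ U ∈ (Finset.range j).powerset, j ∉ U := by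
      intro U hU hjU
      have := Finset.mem_range.1 (Finset.mem_powerset.1 hU hjU)
      omega
    have hsum : ∑ T ∈ (Finset.range (j + 1)).powerset, ω T * PS S T =
        (∑ T ∈ (Finset.range j).powerset, ω T * PS S T) +
        (∑ T ∈ (Finset.range j).powerset, ω (insert j T) * PS S T) * S j := by
      rw [Finset.range_add_one, Finset.sum_powerset_insert Finset.notMem_range_self, Finset.sum_mul]
      congr 1
      refine Finset.sum_congr rfl fun U hU => ?_
      have h5 : PS S (insert j U) = S j * PS S U := Finset.prod_insert (hnot U hU)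
      rw [h5]
      ring
    have hsub : ∀ U ⊆ Finset.range j, U ⊆ Finset.range (j + 1) := fun U hU =>
      hU.trans (Finset.range_mono (Nat.le_succ j))
    have hins : ∀ U ⊆ Finset.range j, insert j U ⊆ Finset.range (j + 1) := by
      intro U hU k hk
      rcases Finset.mem_insert.1 hk with h7 | h7
      · rw [h7]
        exact Finset.self_mem_range_succ j
      · exact hsub U hU h7
    set X1 := ∑ T ∈ (Finset.range j).powerset, ω T * PS S T with hX1
    set X2 := ∑ T ∈ (Finset.range j).powerset, ω (insert j T) * PS S T with hX2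
    have hX1m : X1 ∈ KK h j := sum_mem fun U hU => mul_mem
      (KK_mono h (Nat.zero_le j) (hω U (hsub U (Finset.mem_powerset.1 hU)))) (PS_mem h j U (Finset.mem_powerset.1 hU))
    have hX2m : X2 ∈ KK h j := sum_mem fun U hU => mul_mem
      (KK_mono h (Nat.zero_le j) (hω _ (hins U (Finset.mem_powerset.1 hU)))) (PS_mem h j U (Finset.mem_powerset.1 hU))
    have hδj : δ ∈ KK h j := KK_mono h (Nat.zero_le j) hδ
    have hDa := D_mem h j hj'.le a ha
    have hDb := D_mem h j hj'.le b hb
    have heq : (D a + δ * a - X1) + (D b + (δ + dl τ f j) * b - X2) * S j = 0 := by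
      rw [hsum, map_add, Derivation.leibniz, D_S h hj'] at hD
      simp only [smul_eq_mul] at hD
      linear_combination hD
    have h2 : D b + (δ + dl τ f j) * b - X2 = 0 := by
      by_contra hne
      apply hSj
      have h3 : S j = -(D a + δ * a - X1) * (D b + (δ + dl τ f j) * b - X2)⁻¹ := by
        rw [eq_mul_inv_iff_mul_eq₀ hne]
        linear_combination heq
      rw [h3]
      exact mul_mem (neg_mem (sub_mem (add_mem hDa (mul_mem hδj ha)) hX1m))
        (inv_mem (sub_mem (add_mem hDb (mul_mem (add_mem hδj (dl_mem h j j)) hb)) hX2m))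
    have h1 : D a + δ * a - X1 = 0 := by
      rw [h2, zero_mul, add_zero] at heq
      exact heq
    by_cases hjT : j ∈ T
    · have hTe : T.erase j ⊆ Finset.range j := by
        intro k hk
        have h3 := Finset.mem_range.1 (hT (Finset.mem_of_mem_erase hk))
        have h4 := Finset.ne_of_mem_erase hk
        exact Finset.mem_range.2 (by omega)
      obtain ⟨u, hu, hu1⟩ := ih hj'.le (δ + dl τ f j) (add_mem hδ (dl_mem h j 0)) b hb (fun U => ω (insert j U))
        (fun U hU => hω _ (hins U hU)) (sub_eq_zero.1 h2) (T.erase j) hTe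
      refine ⟨u, hu, ?_⟩
      rw [← Finset.add_sum_erase T _ hjT]
      rw [Finset.insert_erase hjT] at hu1
      rw [← hu1]
      ring
    · refine ih hj'.le δ hδ a ha ω (fun U hU => hω U (hsub U hU)) (sub_eq_zero.1 h1) T ?_
      intro k hk
      have h3 := Finset.mem_range.1 (hT hk)
      have h4 : k ≠ j := fun h5 => hjT (h5 ▸ hk)
      exact Finset.mem_range.2 (by omega)

end Pool.Agent.N121.OQ
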