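import Pool.Agent.N121.OQ.Ind
import Pool.Agent.X255.RH.Hyp

/-!
# Integrals of all kinds on all the double covers of the line: algebraic independence of the functions
-/

set_option autoImplicit false

open Polynomial Filter Topology

namespace Pool.Agent.N121.OQ

open Pool.Agent.Y890.SP
open Pool.Agent.X255.RH (Indep germ_at)

theorem indepA {V : Set ℂ} (hV : IsPreconnected V) (hVo : IsOpen V) (hne : V.Nonempty) {N r : ℕ} (f : Fin N → ℂ[X])
    (hf : ∀ j, Squarefree (f j)) (hcop : ∀ i j, i ≠ j → IsCoprime (f i) (f j)) (hdeg : ∀ j, 1 ≤ (f j).natDegree)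
    (S : Fin N → ℂ → ℂ) (hS : ∀ j, AnalyticOnNhd ℂ (S j) V) (hSS : ∀ j, ∀ x ∈ V, S j x ^ 2 = (f j).eval x)
    (m : Finset (Fin N) → ℕ) (hm : ∀ T, m T + 1 ≤ (∏ j ∈ T, f j).natDegree ∨ m T = 0)
    (c : Fin r → ℂ) (hc : Function.Injective c) (hfc : ∀ j k, (f j).eval (c k) ≠ 0)
    (Φ : (Σ T : Finset (Fin N), Fin (m T)) ⊕ (Finset (Fin N) × Fin r) → ℂ → ℂ) (hΦ : ∀ i, AnalyticOnNhd ℂ (Φ i) V)
    (hd1 : ∀ T (i : Fin (m T)), ∀ x ∈ V, deriv (Φ (Sum.inl ⟨T, i⟩)) x * ∏ j ∈ T, S j x = x ^ (i : ℕ))
    (hd2 : ∀ T (k : Fin r), ∀ x ∈ V, deriv (Φ (Sum.inr (T, k))) x * ((x - c k) * ∏ j ∈ T, S j x) = 1) :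
    Indep V Φ := by
  classical
  obtain ⟨x0, hx0⟩ := hne
  obtain ⟨E, _, _, D, G, hconst, hTc, hTa, hTm, hTd, hTz, hTe⟩ := germ_at x0
  haveI : CharZero E := charZero_of_injective_algebraMap (algebraMap ℂ E).injective
  have hVn : ∀ᶠ x in 𝓝 x0, x ∈ V := hVo.mem_nhds hx0
  set τ : E := G (fun s => s) with hτ
  have hid : AnalyticAt ℂ (fun s : ℂ => s) x0 := analyticAt_id
  have hpow : ∀ n : ℕ, G (fun s => s ^ n) = τ ^ n := by
    intro n
    induction n with
    | zero =>
      simp only [pow_zero]
      rw [hTc 1, map_one]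
    | succ n ih =>
      simp only [pow_succ]
      rw [hTm (fun s => s ^ n) (fun s => s) (hid.pow n) hid, ih]
  have halg : ∀ p : ℂ[X], aeval τ p = G (fun s => p.eval s) := by
    intro p
    induction p using Polynomial.induction_on' with
    | add p q hp hq =>
      simp only [eval_add]
      rw [hTa _ _ (p.differentiable.analyticAt x0) (q.differentiable.analyticAt x0), map_add, hp, hq]
    | monomial n a =>
      simp only [eval_monomial]
      rw [hTm (fun _ => a) (fun s => s ^ n) analyticAt_const (hid.pow n), hTc, hpow, aeval_monomial]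
  have hinj : ∀ p : ℂ[X], aeval τ p = 0 → p = 0 := by
    intro p hp
    rw [halg] at hp
    have h2 := hTz _ (p.differentiable.analyticAt x0) hp
    have h4 := (show AnalyticOnNhd ℂ (fun x => p.eval x) Set.univ from fun x _ => p.differentiable.analyticAt x).eqOn_zero_of_preconnected_of_eventuallyEq_zero
      isPreconnected_univ (Set.mem_univ x0) h2
    exact Polynomial.funext fun x => by rw [eval_zero]; exact h4 (Set.mem_univ x)
  -- the product of the branches
  have hprA : ∀ T : Finset (Fin N), AnalyticAt ℂ (fun s => ∏ j ∈ T, S j s) x0 := by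
    intro T
    induction T using Finset.induction_on with
    | empty =>
      simp only [Finset.prod_empty]
      exact analyticAt_const
    | insert i T hi ih =>
      simp only [Finset.prod_insert hi]
      exact (hS i x0 hx0).mul ih
  have hprG : ∀ T : Finset (Fin N), G (fun s => ∏ j ∈ T, S j s) = ∏ j ∈ T, G (S j) := by
    intro T
    induction T using Finset.induction_on with
    | empty =>
      simp only [Finset.prod_empty]
      rw [hTc 1, map_one]
    | insert i T hi ih =>
      simp only [Finset.prod_insert hi]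
      rw [hTm _ _ (hS i x0 hx0) (hprA T), ih]
  set f' : ℕ → ℂ[X] := fun j => if h : j < N then f ⟨j, h⟩ else 1 with hf'
  set S' : ℕ → E := fun j => if h : j < N then G (S ⟨j, h⟩) else 1 with hS'
  have hf'j : ∀ j : Fin N, f' (j : ℕ) = f j := fun j => by
    rw [hf']
    simp only [dif_pos j.2]
  have hS'j : ∀ j : Fin N, S' (j : ℕ) = G (S j) := fun j => by
    rw [hS']
    simp only [dif_pos j.2]
  have hPS : ∀ T : Finset (Fin N), PS S' (up T) = G (fun s => ∏ j ∈ T, S j s) := by
    intro T
    rw [hprG]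
    unfold PS up
    rw [Finset.prod_map]
    exact Finset.prod_congr rfl fun j _ => hS'j j
  have hPF : ∀ T : Finset (Fin N), PF f' (up T) = ∏ j ∈ T, f j := by
    intro T
    unfold PF up
    rw [Finset.prod_map]
    exact Finset.prod_congr rfl fun j _ => hf'j j
  have hdat : Tw D τ f' S' N := by
    refine ⟨hinj, ?_, ?_, ?_, ?_, ?_⟩
    · rw [hτ, ← hTd _ hid]
      have h1 : deriv (fun s : ℂ => s) = fun _ => 1 := by
        funext s
        simp
      rw [h1, hTc, map_one]
    · intro j
      by_cases hj : j < N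
      · have h1 := hS'j ⟨j, hj⟩
        have h2 := hf'j ⟨j, hj⟩
        simp only at h1 h2
        rw [h1, h2, ← hTm _ _ (hS _ x0 hx0) (hS _ x0 hx0), halg]
        refine hTe _ _ ?_
        filter_upwards [hVn] with x hx
        rw [← hSS _ x hx, sq]
      · rw [hf', hS']
        simp only [dif_neg hj]
        simp
    · intro j hj
      have h2 := hf'j ⟨j, hj⟩
      simp only at h2
      rw [h2]
      exact hf _
    · intro i hi j hj hij
      have h1 := hf'j ⟨i, hi⟩
      have h2 := hf'j ⟨j, hj⟩
      simp only at h1 h2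
      rw [h1, h2]
      exact hcop _ _ fun h3 => hij (congrArg Fin.val h3)
    · intro j hj
      have h2 := hf'j ⟨j, hj⟩
      simp only at h2
      rw [h2]
      exact hdeg _
  have hind := indepT hdat hconst m (fun T => by rw [hPF]; exact hm T) (fun k => -c k)
    (fun i j h => hc (neg_injective h)) (fun j hj k => by
      have h2 := hf'j ⟨j, hj⟩
      simp only at h2
      rw [h2, neg_neg]
      exact hfc _ k) (fun i => G (Φ i)) (fun T i => ?_) (fun T k => ?_)
  · intro P hP
    have hev : ∀ P : MvPolynomial ((Σ T : Finset (Fin N), Fin (m T)) ⊕ (Finset (Fin N) × Fin r)) ℂ[X],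
        MvPolynomial.eval₂ (aeval τ : ℂ[X] →ₐ[ℂ] E).toRingHom (fun i => G (Φ i)) P = G (fun s => evF Φ s P) := by
      intro P
      induction P using MvPolynomial.induction_on with
      | C a =>
        rw [MvPolynomial.eval₂_C]
        show aeval τ a = _
        rw [halg]
        congr 1
        funext s
        simp [evF]
      | add p q hp hq =>
        have h1 : (fun s => evF Φ s (p + q)) = fun s => evF Φ s p + evF Φ s q := by
          funext s
          simp [evF]
        rw [MvPolynomial.eval₂_add, hp, hq, h1, hTa _ _ (evF_an hΦ p x0 hx0) (evF_an hΦ q x0 hx0)]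
      | mul_X p i hp =>
        have h1 : (fun s => evF Φ s (p * MvPolynomial.X i)) = fun s => evF Φ s p * Φ i s := by
          funext s
          simp [evF]
        rw [MvPolynomial.eval₂_mul, MvPolynomial.eval₂_X, hp, h1, hTm _ _ (evF_an hΦ p x0 hx0) (hΦ i x0 hx0)]
    let φ : ℂ[X] →+* KK hdat N := (aeval τ : ℂ[X] →ₐ[ℂ] E).toRingHom.codRestrict
      (KK hdat N).toSubfield.toSubring fun q => KK_poly hdat N q
    have hφ : Function.Injective φ := by
      rw [injective_iff_map_eq_zero]
      intro a ha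
      exact hinj a (congrArg Subtype.val ha)
    have h1 : MvPolynomial.aeval (fun i => G (Φ i)) (MvPolynomial.map φ P) = 0 := by
      rw [MvPolynomial.aeval_def, MvPolynomial.eval₂_map]
      have h2 := hev P
      rw [hTe (fun s => evF Φ s P) (fun _ => 0) (by
        filter_upwards [hVn] with x hx
        exact hP x hx), hTc, map_zero] at h2
      exact h2
    exact MvPolynomial.map_injective φ hφ (by rw [hind.eq_zero_of_aeval_eq_zero _ h1, map_zero])
  · rw [hPS, ← hTd _ (hΦ _ x0 hx0), ← hTm _ _ (hΦ _ x0 hx0).deriv (hprA T), map_pow, aeval_X, ← hpow]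
    refine hTe _ _ ?_
    filter_upwards [hVn] with x hx
    exact hd1 T i x hx
  · rw [hPS, ← hTd _ (hΦ _ x0 hx0), halg, ← hTm _ _ ((X + C (-c k)).differentiable.analyticAt x0) (hprA T),
      ← hTm _ _ (hΦ _ x0 hx0).deriv (((X + C (-c k)).differentiable.analyticAt x0).mul (hprA T)),
      ← map_one (algebraMap ℂ E), ← hTc 1]
    refine hTe _ _ ?_
    filter_upwards [hVn] with x hx
    have h1 := hd2 T k x hx
    rw [eval_add, eval_X, eval_C, ← sub_eq_add_neg]
    exact h1

end Pool.Agent.N121.OQ
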