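import Pool.Agent.N121.OQ.Alg

/-!
# Ostrowski's theorem for the integrals of all kinds on all the double covers of the line
-/

set_option autoImplicit false

open Polynomial

namespace Pool.Agent.N121.OQ

variable {E : Type} [Field E] [Algebra ℂ E] {D : Derivation ℂ E E} {τ : E} {f : ℕ → ℂ[X]} {S : ℕ → E} {N : ℕ}

/-- the set of indices as a set of natural numbers -/
abbrev up (T : Finset (Fin N)) : Finset ℕ := T.map Fin.valEmbedding

/-- the inverse map -/
def dn (N : ℕ) (U : Finset ℕ) : Finset (Fin N) := Finset.univ.filter fun i : Fin N => (i : ℕ) ∈ U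

theorem up_sub (T : Finset (Fin N)) : up T ⊆ Finset.range N := by
  intro k hk
  rw [Finset.mem_map] at hk
  obtain ⟨i, _, rfl⟩ := hk
  exact Finset.mem_range.2 i.2

theorem dn_up (T : Finset (Fin N)) : dn N (up T) = T := by
  ext i
  unfold dn
  rw [Finset.mem_filter, Finset.mem_map]
  constructor
  · rintro ⟨_, j, hj, hji⟩
    have h1 : j = i := Fin.ext hji
    rwa [h1] at hj
  · intro hi
    exact ⟨Finset.mem_univ _, i, hi, rfl⟩

theorem up_dn {U : Finset ℕ} (hU : U ⊆ Finset.range N) : up (dn N U) = U := by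
  ext k
  unfold dn
  rw [Finset.mem_map]
  constructor
  · rintro ⟨i, hi, rfl⟩
    exact (Finset.mem_filter.1 hi).2
  · intro hk
    exact ⟨⟨k, Finset.mem_range.1 (hU hk)⟩, Finset.mem_filter.2 ⟨Finset.mem_univ _, hk⟩, rfl⟩

theorem sum_pow {M : Type} [AddCommMonoid M] (F : Finset (Fin N) → M) :
    ∑ T, F T = ∑ U ∈ (Finset.range N).powerset, F (dn N U) := by
  refine Finset.sum_nbij' (fun T => up T) (fun U => dn N U) ?_ ?_ ?_ ?_ ?_
  · intro T _
    exact Finset.mem_powerset.2 (up_sub T)
  · intro U _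
    exact Finset.mem_univ _
  · intro T _
    exact dn_up T
  · intro U hU
    exact up_dn (Finset.mem_powerset.1 hU)
  · intro T _
    rw [dn_up]

/-- the derivation of the field -/
noncomputable def DK [CharZero E] (h : Tw D τ f S N) : Derivation ℂ (KK h N) (KK h N) :=
  Derivation.mk' { toFun := fun x => ⟨D x, D_mem h N le_rfl x x.2⟩
                   map_add' := fun x y => Subtype.ext (by simp)
                   map_smul' := fun c x => Subtype.ext (by simp) }
    (fun a b => Subtype.ext (by simp [Derivation.leibniz]))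

theorem dl_sum [CharZero E] (h : Tw D τ f S N) (T : Finset ℕ) : T ⊆ Finset.range N →
    2 * aeval τ (PF f T) * ∑ i ∈ T, dl τ f i = aeval τ (derivative (PF f T)) := by
  classical
  induction T using Finset.induction_on with
  | empty =>
    intro _
    simp [PF]
  | insert i T hi ih =>
    intro hT
    have h1 := ih ((Finset.subset_insert _ _).trans hT)
    have hiN : i < N := Finset.mem_range.1 (hT (Finset.mem_insert_self _ _))
    have h2 : PF f (insert i T) = f i * PF f T := Finset.prod_insert hi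
    have h3 : aeval τ (f i) ≠ 0 := fun h0 => f_ne h hiN (h.tr _ h0)
    have h4 : 2 * aeval τ (f i) * dl τ f i = aeval τ (derivative (f i)) := by
      unfold dl
      field_simp
    rw [h2, Finset.sum_insert hi, derivative_mul, map_add, map_mul, map_mul, map_mul]
    linear_combination (aeval τ (f i)) * h1 + (aeval τ (PF f T)) * h4

/-- **Ostrowski's theorem for all the curves.** -/
theorem indepT [CharZero E] (h : Tw D τ f S N) (hconst : ∀ x : E, D x = 0 → ∃ c : ℂ, algebraMap ℂ E c = x) {r : ℕ}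
    (m : Finset (Fin N) → ℕ) (hm : ∀ T, m T + 1 ≤ (PF f (up T)).natDegree ∨ m T = 0) (x : Fin r → ℂ)
    (hx : Function.Injective x) (hfx : ∀ j < N, ∀ i, (f j).eval (-(x i)) ≠ 0)
    (y : (Σ T : Finset (Fin N), Fin (m T)) ⊕ (Finset (Fin N) × Fin r) → E)
    (hy : ∀ T (i : Fin (m T)), D (y (Sum.inl ⟨T, i⟩)) * PS S (up T) = aeval τ (X ^ (i : ℕ) : ℂ[X]))
    (hz : ∀ T (k : Fin r), D (y (Sum.inr (T, k))) * (aeval τ (X + C (x k)) * PS S (up T)) = 1) :
    AlgebraicIndependent (KK h N) y := by
  classical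
  have hPF : ∀ T : Finset (Fin N), aeval τ (PF f (up T)) ≠ 0 := fun T h0 => PF_ne h (up_sub T) (h.tr _ h0)
  have hxk : ∀ k, aeval τ (X + C (x k)) ≠ 0 := fun k h0 => (monic_X_add_C (x k)).ne_zero (h.tr _ h0)
  have hinvS : ∀ T : Finset (Fin N), (PS S (up T))⁻¹ = (aeval τ (PF f (up T)))⁻¹ * PS S (up T) := by
    intro T
    have h1 := PS_ne h (up_sub T)
    rw [← PS_sq h (up T)]
    field_simp
  have hD1 : ∀ T (i : Fin (m T)), D (y (Sum.inl ⟨T, i⟩)) =
      (aeval τ (X ^ (i : ℕ) : ℂ[X]) * (aeval τ (PF f (up T)))⁻¹) * PS S (up T) := by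
    intro T i
    have h1 := PS_ne h (up_sub T)
    rw [mul_assoc, ← hinvS, ← hy T i, mul_assoc, mul_inv_cancel₀ h1, mul_one]
  have hD2 : ∀ T (k : Fin r), D (y (Sum.inr (T, k))) =
      ((aeval τ (X + C (x k)))⁻¹ * (aeval τ (PF f (up T)))⁻¹) * PS S (up T) := by
    intro T k
    rw [mul_assoc, ← hinvS, ← mul_inv]
    exact eq_inv_of_mul_eq_one_left (hz T k)
  have hle := KK_mono h (Nat.zero_le N)
  have hPSm : ∀ T : Finset (Fin N), PS S (up T) ∈ KK h N := fun T => PS_mem h N (up T) (up_sub T)
  have hw : ∀ i, D (y i) ∈ KK h N := by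
    rintro (⟨T, i⟩ | ⟨T, k⟩)
    · rw [hD1]
      exact mul_mem (mul_mem (KK_poly h N _) (inv_mem (KK_poly h N _))) (hPSm T)
    · rw [hD2]
      exact mul_mem (mul_mem (inv_mem (KK_poly h N _)) (inv_mem (KK_poly h N _))) (hPSm T)
  refine Pool.Agent.W253.LF.t_OST ℂ (KK h N) E (DK h) D (fun x => rfl) hconst _ y
    (fun i => ⟨D (y i), hw i⟩) (fun i => rfl) ?_
  intro c g hg
  have hg' : (g : E) = ∑ i, algebraMap ℂ E (c i) * y i := hg.symm
  -- the components
  set ω : Finset (Fin N) → E := fun T => ((∑ i : Fin (m T), algebraMap ℂ E (c (Sum.inl ⟨T, i⟩)) *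
      aeval τ (X ^ (i : ℕ) : ℂ[X])) + ∑ k : Fin r, algebraMap ℂ E (c (Sum.inr (T, k))) * (aeval τ (X + C (x k)))⁻¹) *
    (aeval τ (PF f (up T)))⁻¹ with hω
  have hω0 : ∀ T, ω T ∈ KK h 0 := by
    intro T
    rw [hω]
    refine mul_mem (add_mem (sum_mem fun i _ => ?_) (sum_mem fun k _ => ?_)) (inv_mem (KK_poly h 0 _))
    · exact mul_mem ((KK h 0).algebraMap_mem _) (KK_poly h 0 _)
    · exact mul_mem ((KK h 0).algebraMap_mem _) (inv_mem (KK_poly h 0 _))
  have hDg : D (g : E) = ∑ T, ω T * PS S (up T) := by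
    rw [hg', map_sum, Fintype.sum_sum_type, Fintype.sum_sigma, Fintype.sum_prod_type, ← Finset.sum_add_distrib]
    refine Finset.sum_congr rfl fun T _ => ?_
    rw [hω]
    simp only
    rw [mul_assoc, add_mul, Finset.sum_mul, Finset.sum_mul]
    congr 1
    · refine Finset.sum_congr rfl fun i _ => ?_
      rw [Derivation.leibniz, Derivation.map_algebraMap, smul_zero, add_zero, smul_eq_mul, hD1]
      ring
    · refine Finset.sum_congr rfl fun k _ => ?_
      rw [Derivation.leibniz, Derivation.map_algebraMap, smul_zero, add_zero, smul_eq_mul, hD2]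
      ring
  have hDg2 : D (g : E) + 0 * (g : E) = ∑ U ∈ (Finset.range N).powerset, ω (dn N U) * PS S U := by
    rw [zero_mul, add_zero, hDg, sum_pow]
    refine Finset.sum_congr rfl fun U hU => ?_
    rw [up_dn (Finset.mem_powerset.1 hU)]
  have hdec := dec h N le_rfl 0 (zero_mem _) g g.2 (fun U => ω (dn N U)) (fun U _ => hω0 _) hDg2
  have hcomp : ∀ T, (∀ i, c (Sum.inl ⟨T, i⟩) = 0) ∧ ∀ k, c (Sum.inr (T, k)) = 0 := by
    intro T
    obtain ⟨u, hu, hu1⟩ := hdec (up T) (up_sub T)
    rw [zero_add, dn_up] at hu1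
    obtain ⟨A, Q, hQ, huA⟩ := rat_rep h hu
    set F : ℂ[X] := PF f (up T) with hF
    set W : ℂ[X] := ∑ i : Fin (m T), C (c (Sum.inl ⟨T, i⟩)) * X ^ (i : ℕ) with hWdef
    set R : ℂ[X] := ∏ k : Fin r, (X + C (x k)) with hRdef
    set V : ℂ[X] := ∑ k : Fin r, C (c (Sum.inr (T, k))) * ∏ j ∈ Finset.univ.erase k, (X + C (x j)) with hVdef
    have hF0 : aeval τ F ≠ 0 := hPF T
    have h1 := congrArg D huA
    rw [Derivation.leibniz, Pool.Agent.X255.HY.D_aeval h.Dτ, Pool.Agent.X255.HY.D_aeval h.Dτ] at h1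
    simp only [smul_eq_mul] at h1
    have h2 := dl_sum h (up T) (up_sub T)
    rw [← hF] at h2
    have h3 : ω T * aeval τ F * aeval τ R = aeval τ (W * R + V) := by
      rw [hω]
      simp only
      rw [← hF, inv_mul_cancel_right₀ hF0, add_mul, map_add, map_mul]
      congr 1
      · congr 1
        rw [hWdef, map_sum]
        refine Finset.sum_congr rfl fun i _ => ?_
        rw [map_mul, aeval_C]
      · rw [Finset.sum_mul, hVdef, map_sum]
        refine Finset.sum_congr rfl fun k _ => ?_
        have h4 : R = (X + C (x k)) * ∏ j ∈ Finset.univ.erase k, (X + C (x j)) :=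
          (Finset.mul_prod_erase _ _ (Finset.mem_univ k)).symm
        rw [h4, map_mul, map_mul, aeval_C, mul_assoc, inv_mul_cancel_left₀ (hxk k)]
    have hpoly : (2 * F * (derivative A * Q - A * derivative Q) + A * derivative F * Q) * R =
        2 * Q * Q * (W * R + V) := by
      rw [← sub_eq_zero]
      apply h.tr
      rw [map_sub, map_mul _ (2 * Q * Q), ← h3, ← hu1]
      simp only [map_mul, map_sub, map_add, map_ofNat]
      rw [← h2, ← h1, ← huA]
      ring
    have hWd : W.natDegree + 2 ≤ F.natDegree ∨ W = 0 := by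
      rcases hm T with h0 | h0
      · rw [← hF] at h0
        rcases Nat.eq_zero_or_pos (m T) with h5 | h5
        · right
          rw [hWdef]
          refine Finset.sum_eq_zero fun i _ => ?_
          exact absurd i.2 (by omega)
        · left
          have : W.natDegree ≤ m T - 1 := by
            refine natDegree_sum_le_of_forall_le _ _ fun i _ => ?_
            refine (natDegree_C_mul_X_pow_le _ _).trans ?_
            have := i.2
            omega
          omega
      · right
        rw [hWdef]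
        refine Finset.sum_eq_zero fun i _ => ?_
        exact absurd i.2 (by omega)
    have hFx : ∀ k, F.eval (-(x k)) ≠ 0 := by
      intro k
      rw [hF]
      unfold PF
      rw [eval_prod]
      exact Finset.prod_ne_zero_iff.2 fun j hj => hfx j (Finset.mem_range.1 (up_sub T hj)) k
    obtain ⟨he, hW⟩ := key3 (PF_sf h (up_sub T)) x (fun k => c (Sum.inr (T, k))) hx hFx A Q W hQ hWd hpoly
    refine ⟨fun i => ?_, fun k => congrFun he k⟩
    have h5 : W.coeff i = c (Sum.inl ⟨T, i⟩) := by
      rw [hWdef, finsetSum_coeff, Finset.sum_eq_single i]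
      · simp
      · intro j _ hj
        rw [coeff_C_mul, coeff_X_pow, if_neg, mul_zero]
        intro h6
        exact hj (Fin.ext h6.symm)
      · simp
    rw [← h5, hW]
    simp
  funext v
  rcases v with ⟨T, i⟩ | ⟨T, k⟩
  · exact (hcomp T).1 i
  · exact (hcomp T).2 k

end Pool.Agent.N121.OQ
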